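import Pool.Agent.H693.SR.Stm

set_option autoImplicit false

namespace H48.SR

open Finset

theorem digs (r : ℕ) (hr : 0 < r) (d : ℕ → ℕ) (hd : ∀ i, d i < r) (K : ℕ) :
    ((List.range K).map fun i => d i * r ^ i).sum < r ^ K ∧
      ∀ j < K, ((List.range K).map fun i => d i * r ^ i).sum / r ^ j % r = d j := by
  induction K with
  | zero => simp
  | succ K ih =>
    obtain ⟨h1, h2⟩ := ih
    have hs : ((List.range (K + 1)).map fun i => d i * r ^ i).sum =
        ((List.range K).map fun i => d i * r ^ i).sum + d K * r ^ K := by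
      rw [List.range_succ, List.map_append, List.sum_append]
      simp
    rw [hs]
    generalize ((List.range K).map fun i => d i * r ^ i).sum = S at h1 h2
    have hrK : 0 < r ^ K := pow_pos hr K
    refine ⟨?_, ?_⟩
    · have h3 : d K + 1 ≤ r := hd K
      calc S + d K * r ^ K < r ^ K + d K * r ^ K := by omega
        _ = (d K + 1) * r ^ K := by ring
        _ ≤ r * r ^ K := Nat.mul_le_mul_right _ h3
        _ = r ^ (K + 1) := by ring
    · intro j hj
      rcases Nat.lt_succ_iff_lt_or_eq.1 hj with hj | rfl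
      · have h3 : d K * r ^ K = r ^ j * (r * (r ^ (K - j - 1) * d K)) := by
          have : r ^ K = r ^ j * (r * r ^ (K - j - 1)) := by
            rw [← pow_succ', ← pow_add]
            congr 1
            omega
          rw [this]; ring
        rw [h3, Nat.add_mul_div_left _ _ (pow_pos hr j), Nat.add_mul_mod_self_left]
        exact h2 j hj
      · rw [Nat.add_mul_div_right _ _ hrK, Nat.div_eq_of_lt h1, zero_add]
        exact Nat.mod_eq_of_lt (hd _)

theorem mod_eq (r : ℕ) (K u v : ℕ) (h : ∀ i < K, u / r ^ i % r = v / r ^ i % r) :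
    u % r ^ K = v % r ^ K := by
  induction K with
  | zero => simp [Nat.mod_one]
  | succ K ih =>
    rw [Nat.mod_pow_succ, Nat.mod_pow_succ, ih (fun i hi => h i (by omega)), h K (by omega)]

theorem t_D (h : H693SR.S_C) : H693SR.S_D := by
  classical
  intro r hr K C hC
  haveI : Fact r.Prime := ⟨hr⟩
  have hr0 : 0 < r := hr.pos
  set Z : Finset ℕ := (range (r ^ K)).filter
    (fun u => ∀ a < r, ∀ b < r, H693SR.ent r K u a b ∉ C) with hZ
  let ψ : ℕ → (Fin K → ZMod r) := fun u i => ((u / r ^ (i : ℕ) : ℕ) : ZMod r)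
  have hinj : Set.InjOn ψ (range (r ^ K) : Finset ℕ) := by
    intro u hu v hv huv
    have hu' : u < r ^ K := by simpa using hu
    have hv' : v < r ^ K := by simpa using hv
    have h1 : u % r ^ K = v % r ^ K := by
      apply mod_eq
      intro i hi
      have h2 := congrFun huv ⟨i, hi⟩
      have h3 : ((u / r ^ i : ℕ) : ZMod r) = ((v / r ^ i : ℕ) : ZMod r) := h2
      exact (ZMod.natCast_eq_natCast_iff' _ _ _).1 h3
    rwa [Nat.mod_eq_of_lt hu', Nat.mod_eq_of_lt hv'] at h1
  have hent : ∀ u a b : ℕ, H693SR.ent r K u a b < r ^ K ∧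
      ψ (H693SR.ent r K u a b) = fun i : Fin K => ψ u i + (b : ZMod r) * (a : ZMod r) ^ (i : ℕ) := by
    intro u a b
    obtain ⟨h1, h2⟩ := digs r hr0 (fun i => (u / r ^ i + b * a ^ i) % r)
      (fun i => Nat.mod_lt _ hr0) K
    refine ⟨h1, ?_⟩
    funext i
    have h3 := h2 i i.2
    have h4 : ((H693SR.ent r K u a b / r ^ (i : ℕ) : ℕ) : ZMod r) =
        (((u / r ^ (i : ℕ) + b * a ^ (i : ℕ)) % r : ℕ) : ZMod r) := by
      rw [← h3, ZMod.natCast_mod]
      rfl
    show ((H693SR.ent r K u a b / r ^ (i : ℕ) : ℕ) : ZMod r) = _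
    rw [h4, ZMod.natCast_mod]
    push_cast
    rfl
  have hZr : Z ⊆ range (r ^ K) := Finset.filter_subset _ _
  have h1 := h r K (Z.image ψ) (C.image ψ) (by
    intro x hx a b hc
    rw [Finset.mem_image] at hx hc
    obtain ⟨u, hu, rfl⟩ := hx
    obtain ⟨c, hc, hcc⟩ := hc
    obtain ⟨h2, h3⟩ := hent u a.val b.val
    have h4 : ψ (H693SR.ent r K u a.val b.val) = ψ c := by
      rw [h3, hcc]
      simp [ZMod.natCast_zmod_val]
    have h5 := hinj (by simpa using h2) (hC hc) h4
    rw [hZ, Finset.mem_filter] at hu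
    exact hu.2 a.val (ZMod.val_lt a) b.val (ZMod.val_lt b) (h5 ▸ hc))
  rw [Finset.card_image_of_injOn (hinj.mono (by exact_mod_cast hZr)),
    Finset.card_image_of_injOn (hinj.mono (by exact_mod_cast hC))] at h1
  exact h1

end H48.SR
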